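import Pool.Agent.Helper43_LC5.Tool

/-!
# Squad LC5, row ALP
-/

set_option autoImplicit false

open Topology

namespace Pool.Agent.LC5.H43

open Pool.Agent.LCK Pool.Agent.LC5

/-- link 4 turned to the direction `q` -/
noncomputable def W5 (l : Fin 5 → ℝ) (v : Fin 6 → E3) (q : ℝ × ℝ × ℝ) : Fin 6 → E3 :=
  Function.update v 5 (v 4 + (l 4 / ‖vc v q‖) • vc v q)

theorem W5_cont (hC : CRDStmt) (l : Fin 5 → ℝ) {v : Fin 6 → E3} (hd : dt v ≠ 0)
    (S : Set (ℝ × ℝ × ℝ)) (hS : ∀ p ∈ S, p ≠ 0) : ContinuousOn (W5 l v) S := by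
  have h1 : ContinuousOn (fun q => v 4 + (l 4 / ‖vc v q‖) • vc v q) S := by
    have h2 : ContinuousOn (fun q => vc v q) S := (vc_cont v).continuousOn
    refine continuousOn_const.add (ContinuousOn.smul (continuousOn_const.div h2.norm ?_) h2)
    intro p hp h
    rw [norm_eq_zero] at h
    exact hS p hp (vc_zero hC hd h)
  unfold W5
  intro q hq
  have := h1 q hq
  exact (continuousWithinAt_const (b := v)).update 5 this

theorem W5_join (hC : CRDStmt) {l : Fin 5 → ℝ} {v : Fin 6 → E3} (hd : dt v ≠ 0)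
    {S : Set (ℝ × ℝ × ℝ)} (hS : ∀ p ∈ S, p ≠ 0) (hW : ∀ p ∈ S, W5 l v p ∈ Conf l)
    {p q : ℝ × ℝ × ℝ} (h : JoinedIn S p q) : JoinedIn (Conf l) (W5 l v p) (W5 l v q) := by
  have h1 := h.map_continuousOn (W5_cont hC l hd S hS)
  refine h1.mono ?_
  rintro _ ⟨x, hx, rfl⟩
  exact hW x hx

theorem W5_self {l : Fin 5 → ℝ} {v : Fin 6 → E3} (hv : dist (v 4) (v 5) = l 4) {q : ℝ × ℝ × ℝ}
    (hl : 0 < l 4) (hq : v 5 - v 4 = vc v q) : W5 l v q = v := by
  unfold W5
  rw [← hq, ← dist_eq_norm, dist_comm, hv, div_self hl.ne', one_smul, add_sub_cancel,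
    Function.update_eq_self]

theorem alp (hS : SM6Stmt) (hC : CRDStmt) : ALPStmt := by
  intro l hl v hv hd a b c x y z h5 h0 ha hb hc habc hy hz hyx
  have hv' := (hS.2 l v).1 hv
  have h5' : v 5 - v 4 = vc v (a, b, c) := h5
  have hx : 0 < x := by
    by_contra hn
    push Not at hn
    nlinarith [mul_pos hy ha]
  have hl4 := hl 4
  set S : Set (ℝ × ℝ × ℝ) := {p | p ≠ 0 ∧ W5 l v p ∈ Conf l} with hSdef
  have hS1 : ∀ t : ℝ, 0 ≤ t → t ≤ 2 * a → ((a - t, b + t, c) : ℝ × ℝ × ℝ) ∈ S := by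
    intro t t0 t1
    have hp0 : ((a - t, b + t, c) : ℝ × ℝ × ℝ) ≠ 0 := by
      intro h
      simp only [Prod.ext_iff, Prod.fst_zero, Prod.snd_zero] at h
      linarith [h.2.2]
    refine ⟨hp0, ?_⟩
    have hN : 0 < ‖vc v (a - t, b + t, c)‖ := by
      rw [norm_pos_iff]
      exact fun h => hp0 (vc_zero hC hd h)
    refine ray4 hS hC hv hd h0 _ _ (div_nonneg hl4.le hN.le) (div_mul_cancel₀ _ hN.ne')
      ?_ ?_ ?_ ?_
    · intro s ρ s0 s1 g0 g1 h
      simp only [Prod.ext_iff, Prod.smul_fst, Prod.smul_snd, smul_eq_mul] at h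
      obtain ⟨e1, e2, e3⟩ := h
      have hr : 0 < ρ := by
        rcases g0.eq_or_lt with rfl | g
        · have : 0 < s * (b + t) := by positivity
          linarith
        · exact g
      have h1 : s * ρ * ((a - t) * y) = s * ρ * ((b + t) * x) := by
        calc s * ρ * ((a - t) * y) = (s * (a - t)) * (ρ * y) := by ring
          _ = (ρ * x) * (s * (b + t)) := by rw [← e1, e2]
          _ = s * ρ * ((b + t) * x) := by ring
      have h2 := mul_left_cancel₀ (mul_pos s0 hr).ne' h1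
      nlinarith [mul_nonneg t0 hy.le, mul_nonneg t0 hx.le]
    · intro s β s0 s1 g0 g1 h
      simp only [Prod.ext_iff] at h
      obtain ⟨e1, e2, e3⟩ := h
      have h1 : a - t = 0 := by
        rcases mul_eq_zero.1 e1.symm with h | h
        · exact absurd h s0.ne'
        · exact h
      nlinarith [mul_pos s0 habc]
    · intro s β s0 s1 g0 g1 h
      simp only [Prod.ext_iff] at h
      obtain ⟨e1, e2, e3⟩ := h
      nlinarith [mul_pos s0 habc]
    · intro s β s0 s1 g0 g1 h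
      simp only [Prod.ext_iff] at h
      obtain ⟨e1, e2, e3⟩ := h
      nlinarith [mul_pos s0 hb, mul_nonneg s0.le t0]
  have J : JoinedIn S (a, b, c) (-a, b + 2 * a, c) := by
    refine JoinedIn.of_segment_subset ?_
    intro p hp
    rw [segment_eq_image] at hp
    obtain ⟨t, ⟨t0, t1⟩, rfl⟩ := hp
    have h := hS1 (2 * a * t) (by positivity) (by nlinarith)
    have e : (1 - t) • ((a, b, c) : ℝ × ℝ × ℝ) + t • ((-a, b + 2 * a, c) : ℝ × ℝ × ℝ) =
        (a - 2 * a * t, b + 2 * a * t, c) := by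
      refine Prod.ext ?_ (Prod.ext ?_ ?_)
      · simp only [Prod.fst_add, Prod.smul_fst, smul_eq_mul]
        ring
      · simp only [Prod.fst_add, Prod.snd_add, Prod.smul_fst, Prod.smul_snd, smul_eq_mul]
        ring
      · simp only [Prod.snd_add, Prod.smul_snd, smul_eq_mul]
        ring
    simp only [e]
    exact h
  have h := W5_join hC (l := l) hd (S := S) (fun p hp => hp.1) (fun p hp => hp.2) J
  rw [W5_self hv'.1.2.2.2.2 hl4 h5'] at h
  have hp0 : ((-a, b + 2 * a, c) : ℝ × ℝ × ℝ) ≠ 0 := by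
    intro h
    simp only [Prod.ext_iff, Prod.fst_zero, Prod.snd_zero] at h
    linarith [h.2.2]
  have hN : 0 < ‖vc v (-a, b + 2 * a, c)‖ := by
    rw [norm_pos_iff]
    exact fun h => hp0 (vc_zero hC hd h)
  refine ⟨l 4 / ‖vc v (-a, b + 2 * a, c)‖, div_pos hl4 hN, ?_⟩
  rw [W5] at h
  set k := l 4 / ‖vc v (-a, b + 2 * a, c)‖ with hk
  have e : k • vc v (-a, b + 2 * a, c) = (k * (-a)) • (v 3 - v 1) + (k * (b + 2 * a)) • (v 2 - v 1)
      + (k * c) • (v 4 - v 1) := by
    simp only [vc, smul_add, smul_smul]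
  rwa [e] at h

end Pool.Agent.LC5.H43
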