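import Pool.Agent.Helper43_LC5.Tool

/-!
# Squad LC5, row BET
-/

set_option autoImplicit false

open Topology

namespace Pool.Agent.LC5.H43

open Pool.Agent.LCK Pool.Agent.LC5

theorem bet (hS : SM6Stmt) (hC : CRDStmt) (hB : BSIStmt) : BETStmt := by
  intro l hl v hv hR hlt
  have hv' := (hS.2 l v).1 hv
  obtain ⟨hd, a, b, c, x, y, z, h5, h0, ha, hb, habc, hy, hz, hyx⟩ := hR
  have h5' : v 5 - v 4 = vc v (a, b, c - 1) := by
    rw [h5, ← pt_four v]
    simp only [pt, vc]
    module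
  have hb' : 0 < b := hb
  have hx : 0 < x := by
    by_contra hn
    push Not at hn
    nlinarith [mul_pos hy ha]
  have hl0 := hl 0
  have h4n : ‖pt v (0, 0, 1) - v 1‖ = dist (v 1) (v 4) := by
    rw [pt_four, dist_comm, dist_eq_norm]
  -- the good directions
  set S : Set (ℝ × ℝ × ℝ) := {p | p ≠ 0 ∧ W0 l v p ∈ Conf l} with hSdef
  have hfr : ∀ p : ℝ × ℝ × ℝ, p.1 = 0 → p.2.1 < 0 → p ∈ S := by
    rintro ⟨p1, p2, p3⟩ hp1 hp2
    simp only at hp1 hp2
    subst hp1
    have hp0 : ((0, p2, p3) : ℝ × ℝ × ℝ) ≠ 0 := by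
      intro h
      simp only [Prod.ext_iff, Prod.fst_zero, Prod.snd_zero] at h
      linarith [h.2.1]
    refine ⟨hp0, ?_⟩
    have hN : 0 < ‖pt v (0, p2, p3) - v 1‖ := by
      rw [norm_pos_iff, vc_pt]
      exact fun h => hp0 (vc_zero hC hd h)
    refine ray0 hS hC hv hd h5' _ _ (div_nonneg hl0.le hN.le) (div_mul_cancel₀ _ hN.ne')
      ?_ ?_ ?_ ?_
    · intro ρ β r0 r1 g0 g1 h
      simp only [Prod.ext_iff, Prod.smul_fst, Prod.smul_snd, smul_eq_mul] at h
      nlinarith [h.2.1]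
    · intro ρ β r0 r1 g0 g1 h
      simp only [Prod.ext_iff, Prod.smul_fst, Prod.smul_snd, smul_eq_mul] at h
      nlinarith [h.2.1]
    · intro ρ β r0 r1 g0 g1 h
      simp only [Prod.ext_iff, Prod.smul_fst, Prod.smul_snd, smul_eq_mul] at h
      nlinarith [h.2.1]
    · intro ρ s r0 r1 g0 g1 h
      simp only [Prod.ext_iff, Prod.smul_fst, Prod.smul_snd, smul_eq_mul] at h
      nlinarith [h.2.1, mul_nonneg g0 hb'.le]
  have hmid : ((0, 0, 1) : ℝ × ℝ × ℝ) ∈ S := by
    have hp0 : ((0, 0, 1) : ℝ × ℝ × ℝ) ≠ 0 := by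
      intro h
      simp only [Prod.ext_iff, Prod.fst_zero, Prod.snd_zero] at h
      linarith [h.2.2]
    refine ⟨hp0, ?_⟩
    have hN : 0 < ‖pt v (0, 0, 1) - v 1‖ := by
      rw [norm_pos_iff, vc_pt]
      exact fun h => hp0 (vc_zero hC hd h)
    have hr1 : l 0 / ‖pt v (0, 0, 1) - v 1‖ < 1 := by
      rw [div_lt_one hN, h4n]
      exact hlt
    refine ray0 hS hC hv hd h5' _ _ (div_nonneg hl0.le hN.le) (div_mul_cancel₀ _ hN.ne')
      ?_ ?_ ?_ ?_
    · intro ρ β r0 r1 g0 g1 h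
      simp only [Prod.ext_iff, Prod.smul_fst, Prod.smul_snd, smul_eq_mul] at h
      nlinarith [h.2.2]
    · intro ρ β r0 r1 g0 g1 h
      simp only [Prod.ext_iff, Prod.smul_fst, Prod.smul_snd, smul_eq_mul] at h
      nlinarith [h.2.2]
    · intro ρ β r0 r1 g0 g1 h
      simp only [Prod.ext_iff, Prod.smul_fst, Prod.smul_snd, smul_eq_mul] at h
      linarith [h.1, h.2.2]
    · intro ρ s r0 r1 g0 g1 h
      simp only [Prod.ext_iff, Prod.smul_fst, Prod.smul_snd, smul_eq_mul] at h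
      have hs : s = 0 := by
        have : s * a = 0 := by linarith [h.1]
        rcases mul_eq_zero.1 this with h | h
        · exact h
        · exact absurd h ha.ne'
      rw [hs] at h
      linarith [h.2.2]
  have hpos : ∀ p : ℝ × ℝ × ℝ, 0 < p.2.1 → 0 < p.2.2 → p.2.1 * a < p.1 * b → p ∈ S := by
    rintro ⟨p1, p2, p3⟩ hp2 hp3 hp
    simp only at hp2 hp3 hp
    have hp0 : ((p1, p2, p3) : ℝ × ℝ × ℝ) ≠ 0 := by
      intro h
      simp only [Prod.ext_iff, Prod.fst_zero, Prod.snd_zero] at h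
      linarith [h.2.1]
    refine ⟨hp0, ?_⟩
    have hN : 0 < ‖pt v (p1, p2, p3) - v 1‖ := by
      rw [norm_pos_iff, vc_pt]
      exact fun h => hp0 (vc_zero hC hd h)
    set r := l 0 / ‖pt v (p1, p2, p3) - v 1‖ with hr
    have hrp : 0 < r := div_pos hl0 hN
    have e : ∀ k : Fin 6, k ≠ 0 → W0 l v (p1, p2, p3) k = v k :=
      fun k hk => Function.update_of_ne hk _ _
    have e0 : W0 l v (p1, p2, p3) 0 = v 1 + r • (pt v (p1, p2, p3) - v 1) :=
      Function.update_self _ _ _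
    have ept : ∀ q, pt (W0 l v (p1, p2, p3)) q = pt v q := by
      intro q
      simp only [pt, e 1 (by decide), e 2 (by decide), e 3 (by decide), e 4 (by decide)]
    have hBR : BRay (W0 l v (p1, p2, p3)) := by
      refine ⟨?_, a, b, c, r * p1, r * p2, r * p3, ?_, ?_, ha, hb, habc, by positivity,
        by positivity, ?_⟩
      · simp only [dt, e 1 (by decide), e 2 (by decide), e 3 (by decide), e 4 (by decide)]
        exact hd
      · rw [ept, e 5 (by decide), h5]
      · rw [ept, e0, ← pt_smul]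
        rfl
      · nlinarith [mul_lt_mul_of_pos_left hp hrp]
    have hSi := hB _ hBR
    rw [hS.2 l _, e0, e 1 (by decide), e 2 (by decide), e 3 (by decide), e 4 (by decide),
      e 5 (by decide)]
    obtain ⟨⟨a0, a1, a2, a3, a4⟩, -⟩ := hv'
    refine ⟨⟨?_, a1, a2, a3, a4⟩, hSi⟩
    rw [dist_eq_norm, add_sub_cancel_left, norm_smul, Real.norm_of_nonneg hrp.le, hr,
      div_mul_cancel₀ _ hN.ne']
  -- the three segments
  have J1 : JoinedIn S (x, y, z) (0, 0, 1) := by
    refine JoinedIn.of_segment_subset ?_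
    intro p hp
    rw [segment_eq_image] at hp
    obtain ⟨t, ⟨t0, t1⟩, rfl⟩ := hp
    rcases t1.eq_or_lt with rfl | t1
    · have : ((1 : ℝ) - 1) • ((x, y, z) : ℝ × ℝ × ℝ) + (1 : ℝ) • ((0, 0, 1) : ℝ × ℝ × ℝ) =
        (0, 0, 1) := by simp
      simp only [this]
      exact hmid
    · have h1 : 0 < 1 - t := by linarith
      apply hpos
      · simp only [Prod.snd_add, Prod.fst_add, Prod.smul_snd, Prod.smul_fst, smul_eq_mul]
        have := mul_pos h1 hy
        linarith
      · simp only [Prod.snd_add, Prod.smul_snd, smul_eq_mul]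
        have := mul_pos h1 hz
        linarith
      · simp only [Prod.snd_add, Prod.fst_add, Prod.smul_snd, Prod.smul_fst, smul_eq_mul]
        nlinarith [mul_lt_mul_of_pos_left hyx h1]
  have J2 : JoinedIn S (0, 0, 1) (0, -1, 1) := by
    refine JoinedIn.of_segment_subset ?_
    intro p hp
    rw [segment_eq_image] at hp
    obtain ⟨t, ⟨t0, t1⟩, rfl⟩ := hp
    rcases t0.eq_or_lt with rfl | t0
    · have : ((1 : ℝ) - 0) • ((0, 0, 1) : ℝ × ℝ × ℝ) + (0 : ℝ) • ((0, -1, 1) : ℝ × ℝ × ℝ) =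
        (0, 0, 1) := by simp
      simp only [this]
      exact hmid
    · apply hfr
      · simp
      · simp only [Prod.snd_add, Prod.fst_add, Prod.smul_snd, Prod.smul_fst, smul_eq_mul]
        linarith
  have J3 : JoinedIn S (0, -1, 1) (0, -1, 0) := by
    refine JoinedIn.of_segment_subset ?_
    intro p hp
    rw [segment_eq_image] at hp
    obtain ⟨t, ⟨t0, t1⟩, rfl⟩ := hp
    apply hfr
    · simp
    · simp only [Prod.snd_add, Prod.fst_add, Prod.smul_snd, Prod.smul_fst, smul_eq_mul]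
      linarith
  have h := W0_join hC (l := l) hd (S := S) (fun p hp => hp.1) (fun p hp => hp.2)
    ((J1.trans J2).trans J3)
  rwa [W0_self hv'.1.1 (hl 0) h0, W0_straight hv'.1.2.1] at h

end Pool.Agent.LC5.H43
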