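import Pool.Agent.Helper43_LC5.Tool

/-!
# Squad LC5, row TRN
-/

set_option autoImplicit false

open Topology

namespace Pool.Agent.LC5.H43

open Pool.Agent.LCK Pool.Agent.LC5

theorem Fr_ne {a b c : ℝ} {p : ℝ × ℝ × ℝ} (hp : p ∈ Fr a b c) : p ≠ 0 := by
  rintro rfl
  exact hp.1 ⟨rfl, le_refl _, le_refl _⟩

theorem trn (hS : SM6Stmt) (hC : CRDStmt) : TRNStmt := by
  intro l hl v hv hd a b c x y z h5 h0 hj
  have hv' := (hS.2 l v).1 hv
  have h5' : v 5 - v 4 = vc v (a, b, c) := h5
  have h := W0_join hC (l := l) hd (S := Fr a b c) (fun p hp => Fr_ne hp) ?_ hj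
  · rwa [W0_self hv'.1.1 (hl 0) h0, W0_straight hv'.1.2.1] at h
  · intro p hp
    have hX : pt v p - v 1 ≠ 0 := by
      rw [vc_pt]
      intro h
      exact Fr_ne hp (vc_zero hC hd h)
    have hN : 0 < ‖pt v p - v 1‖ := norm_pos_iff.2 hX
    obtain ⟨f1, f2, f3⟩ := hp
    refine ray0 hS hC hv hd h5' p _ (div_nonneg (hl 0).le hN.le) (div_mul_cancel₀ _ hN.ne')
      ?_ ?_ ?_ ?_
    · intro ρ β r0 r1 g0 g1 h
      simp only [Prod.ext_iff, Prod.smul_fst, Prod.smul_snd, smul_eq_mul] at h
      obtain ⟨e1, e2, e3⟩ := h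
      refine f1 ⟨?_, ?_, ?_⟩
      · simpa [r0.ne'] using e3
      · have : p.1 = 0 := by simpa [r0.ne'] using e1
        rw [this]
      · by_contra hn
        push Not at hn
        nlinarith
    · intro ρ β r0 r1 g0 g1 h
      simp only [Prod.ext_iff, Prod.smul_fst, Prod.smul_snd, smul_eq_mul] at h
      obtain ⟨e1, e2, e3⟩ := h
      refine f1 ⟨?_, ?_, ?_⟩
      · simpa [r0.ne'] using e3
      · by_contra hn
        push Not at hn
        nlinarith
      · by_contra hn
        push Not at hn
        nlinarith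
    · intro ρ β r0 r1 g0 g1 h
      simp only [Prod.ext_iff, Prod.smul_fst, Prod.smul_snd, smul_eq_mul] at h
      obtain ⟨e1, e2, e3⟩ := h
      refine f2 ⟨?_, ?_, ?_⟩
      · simpa [r0.ne'] using e2
      · by_contra hn
        push Not at hn
        nlinarith
      · by_contra hn
        push Not at hn
        nlinarith
    · intro ρ s r0 r1 g0 g1 h
      simp only [Prod.ext_iff, Prod.smul_fst, Prod.smul_snd, smul_eq_mul] at h
      obtain ⟨e1, e2, e3⟩ := h
      refine f3 ⟨s / ρ, 1 / ρ, by positivity, by positivity, ?_⟩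
      refine Prod.ext ?_ (Prod.ext ?_ ?_)
      · simp only
        field_simp
        linarith
      · simp only
        field_simp
        linarith
      · simp only
        field_simp
        linarith

end Pool.Agent.LC5.H43
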