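import Pool.Agent.LC5.Stmts

/-!
# Squad LC5: tools for moving the first or the last link of a chain with five links
-/

set_option autoImplicit false

open Topology

namespace Pool.Agent.LC5.H43

open Pool.Agent.LCK Pool.Agent.LC5

theorem pt_smul (v : Fin 6 → E3) (ρ : ℝ) (q : ℝ × ℝ × ℝ) :
    pt v (ρ • q) = v 1 + ρ • (pt v q - v 1) := by
  simp only [pt, Prod.smul_fst, Prod.smul_snd, smul_eq_mul, add_sub_cancel_left, smul_add, smul_smul]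

theorem pt_inj (hC : CRDStmt) {v : Fin 6 → E3} (hv : dt v ≠ 0) {p q : ℝ × ℝ × ℝ}
    (h : pt v p = pt v q) : p = q := by
  rw [← (hC v hv).2.1 p, h, (hC v hv).2.1 q]

theorem pt_one (v : Fin 6 → E3) : pt v (0, 0, 0) = v 1 := by simp [pt]

theorem pt_two (v : Fin 6 → E3) : pt v (0, 1, 0) = v 2 := by simp [pt]

theorem pt_three (v : Fin 6 → E3) : pt v (1, 0, 0) = v 3 := by simp [pt]

theorem pt_four (v : Fin 6 → E3) : pt v (0, 0, 1) = v 4 := by simp [pt]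

theorem mem_seg {a b X : E3} (h : X ∈ segment ℝ a b) : ∃ t : ℝ, 0 ≤ t ∧ t ≤ 1 ∧
    X = a + t • (b - a) := by
  rw [segment_eq_image'] at h
  obtain ⟨t, ht, rfl⟩ := h
  exact ⟨t, ht.1, ht.2, rfl⟩

theorem seg1 {v : Fin 6 → E3} {X : E3} (h : X ∈ segment ℝ (v 1) (v 2)) :
    ∃ b : ℝ, 0 ≤ b ∧ b ≤ 1 ∧ X = pt v (0, b, 0) := by
  obtain ⟨t, h0, h1, rfl⟩ := mem_seg h
  exact ⟨t, h0, h1, by simp [pt]⟩

theorem seg2 {v : Fin 6 → E3} {X : E3} (h : X ∈ segment ℝ (v 2) (v 3)) :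
    ∃ b : ℝ, 0 ≤ b ∧ b ≤ 1 ∧ X = pt v (1 - b, b, 0) := by
  obtain ⟨t, h0, h1, rfl⟩ := mem_seg h
  refine ⟨1 - t, by linarith, by linarith, ?_⟩
  simp only [pt]
  module

theorem seg3 {v : Fin 6 → E3} {X : E3} (h : X ∈ segment ℝ (v 3) (v 4)) :
    ∃ b : ℝ, 0 ≤ b ∧ b ≤ 1 ∧ X = pt v (1 - b, 0, b) := by
  obtain ⟨t, h0, h1, rfl⟩ := mem_seg h
  refine ⟨t, h0, h1, ?_⟩
  simp only [pt]
  module

/-- the vector with coordinates `(a, b, c)` -/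
def vc (v : Fin 6 → E3) (p : ℝ × ℝ × ℝ) : E3 :=
  p.1 • (v 3 - v 1) + p.2.1 • (v 2 - v 1) + p.2.2 • (v 4 - v 1)

theorem four_add (v : Fin 6 → E3) (s : ℝ) (p : ℝ × ℝ × ℝ) :
    v 4 + s • vc v p = pt v (s * p.1, s * p.2.1, 1 + s * p.2.2) := by
  simp only [pt, vc]
  module

theorem vc_pt (v : Fin 6 → E3) (p : ℝ × ℝ × ℝ) : pt v p - v 1 = vc v p := by
  simp [pt, vc]

theorem vc_zero (hC : CRDStmt) {v : Fin 6 → E3} (hv : dt v ≠ 0) {p : ℝ × ℝ × ℝ}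
    (h : vc v p = 0) : p = 0 := by
  rw [← vc_pt, sub_eq_zero] at h
  have := pt_inj hC hv (h.trans (pt_one v).symm)
  exact this

theorem seg4 {v : Fin 6 → E3} {a b c : ℝ} (h5 : v 5 - v 4 = vc v (a, b, c)) {X : E3}
    (h : X ∈ segment ℝ (v 4) (v 5)) :
    ∃ s : ℝ, 0 ≤ s ∧ s ≤ 1 ∧ X = pt v (s * a, s * b, 1 + s * c) := by
  obtain ⟨t, h0, h1, rfl⟩ := mem_seg h
  refine ⟨t, h0, h1, ?_⟩
  rw [h5, four_add]

theorem seg0 {v : Fin 6 → E3} {p : ℝ × ℝ × ℝ} (h5 : v 0 = pt v p) {X : E3}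
    (h : X ∈ segment ℝ (v 0) (v 1)) :
    ∃ s : ℝ, 0 ≤ s ∧ s ≤ 1 ∧ X = pt v (s • p) := by
  rw [segment_symm] at h
  obtain ⟨t, h0, h1, rfl⟩ := mem_seg h
  refine ⟨t, h0, h1, ?_⟩
  rw [pt_smul, ← h5]

theorem segr {v : Fin 6 → E3} {r : ℝ} (hr : 0 ≤ r) {q : ℝ × ℝ × ℝ} {X : E3}
    (h : X ∈ segment ℝ (v 1 + r • (pt v q - v 1)) (v 1)) :
    ∃ ρ : ℝ, 0 ≤ ρ ∧ ρ ≤ r ∧ X = pt v (ρ • q) := by
  rw [segment_symm] at h
  obtain ⟨t, h0, h1, rfl⟩ := mem_seg h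
  refine ⟨t * r, by positivity, by nlinarith, ?_⟩
  rw [pt_smul]
  module

theorem segr4 {v : Fin 6 → E3} {r : ℝ} (hr : 0 ≤ r) {q : ℝ × ℝ × ℝ} {X : E3}
    (h : X ∈ segment ℝ (v 4) (v 4 + r • vc v q)) :
    ∃ s : ℝ, 0 ≤ s ∧ s ≤ r ∧ X = pt v (s * q.1, s * q.2.1, 1 + s * q.2.2) := by
  obtain ⟨t, h0, h1, rfl⟩ := mem_seg h
  refine ⟨t * r, by positivity, by nlinarith, ?_⟩
  rw [← four_add]
  module

theorem upd0 (hS : SM6Stmt) {l : Fin 5 → ℝ} {v : Fin 6 → E3} (hv : v ∈ Conf l) (X : E3)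
    (hd : dist X (v 1) = l 0) (h1 : Hi X (v 1) (v 2)) (h2 : Dj X (v 1) (v 2) (v 3))
    (h3 : Dj X (v 1) (v 3) (v 4)) (h4 : Dj X (v 1) (v 4) (v 5)) :
    Function.update v 0 X ∈ Conf l := by
  have e : ∀ k : Fin 6, k ≠ 0 → Function.update v 0 X k = v k :=
    fun k hk => Function.update_of_ne hk _ _
  have e0 : Function.update v 0 X 0 = X := Function.update_self _ _ _
  rw [hS.2 l v, hS.1 v] at hv
  rw [hS.2 l _, hS.1 _, e0, e 1 (by decide), e 2 (by decide), e 3 (by decide), e 4 (by decide),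
    e 5 (by decide)]
  obtain ⟨⟨-, a1, a2, a3, a4⟩, -, b2, b3, b4, -, -, -, c4, c5, c6⟩ := hv
  exact ⟨⟨hd, a1, a2, a3, a4⟩, h1, b2, b3, b4, h2, h3, h4, c4, c5, c6⟩

theorem upd5 (hS : SM6Stmt) {l : Fin 5 → ℝ} {v : Fin 6 → E3} (hv : v ∈ Conf l) (X : E3)
    (hd : dist (v 4) X = l 4) (h1 : Hi (v 3) (v 4) X) (h2 : Dj (v 0) (v 1) (v 4) X)
    (h3 : Dj (v 1) (v 2) (v 4) X) (h4 : Dj (v 2) (v 3) (v 4) X) :
    Function.update v 5 X ∈ Conf l := by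
  have e : ∀ k : Fin 6, k ≠ 5 → Function.update v 5 X k = v k :=
    fun k hk => Function.update_of_ne hk _ _
  have e0 : Function.update v 5 X 5 = X := Function.update_self _ _ _
  rw [hS.2 l v, hS.1 v] at hv
  rw [hS.2 l _, hS.1 _, e0, e 0 (by decide), e 1 (by decide), e 2 (by decide), e 3 (by decide),
    e 4 (by decide)]
  obtain ⟨⟨a0, a1, a2, a3, -⟩, b1, b2, b3, -, c1, c2, -, c4, -, -⟩ := hv
  exact ⟨⟨a0, a1, a2, a3, hd⟩, b1, b2, b3, h1, c1, c2, h2, c4, h3, h4⟩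

/-- turn link 0 to the direction `q` -/
theorem ray0 (hS : SM6Stmt) (hC : CRDStmt) {l : Fin 5 → ℝ} {v : Fin 6 → E3} (hv : v ∈ Conf l)
    (hd : dt v ≠ 0) {a b c : ℝ} (h5 : v 5 - v 4 = vc v (a, b, c)) (q : ℝ × ℝ × ℝ) (r : ℝ)
    (hr : 0 ≤ r) (hn : r * ‖pt v q - v 1‖ = l 0)
    (H1 : ∀ ρ β : ℝ, 0 < ρ → ρ ≤ r → 0 ≤ β → β ≤ 1 → ρ • q ≠ (0, β, 0))
    (H2 : ∀ ρ β : ℝ, 0 < ρ → ρ ≤ r → 0 ≤ β → β ≤ 1 → ρ • q ≠ (1 - β, β, 0))
    (H3 : ∀ ρ β : ℝ, 0 < ρ → ρ ≤ r → 0 ≤ β → β ≤ 1 → ρ • q ≠ (1 - β, 0, β))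
    (H4 : ∀ ρ s : ℝ, 0 < ρ → ρ ≤ r → 0 ≤ s → s ≤ 1 → ρ • q ≠ (s * a, s * b, 1 + s * c)) :
    Function.update v 0 (v 1 + r • (pt v q - v 1)) ∈ Conf l := by
  have hv' := (hS.2 l v).1 hv
  have hv1 := (hS.1 v).1 hv'.2
  refine upd0 hS hv _ ?_ ?_ ?_ ?_ ?_
  · rw [dist_eq_norm, add_sub_cancel_left, norm_smul, Real.norm_of_nonneg hr, hn]
  · refine Set.Subset.antisymm ?_ ?_
    · rintro X ⟨hX1, hX2⟩
      obtain ⟨ρ, h0, h1, rfl⟩ := segr hr hX1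
      obtain ⟨β, g0, g1, hβ⟩ := seg1 hX2
      have h := pt_inj hC hd hβ
      rcases h0.eq_or_lt with rfl | h0
      · rw [zero_smul]
        exact pt_one v
      · exact absurd h (H1 ρ β h0 h1 g0 g1)
    · rintro X rfl
      exact ⟨right_mem_segment _ _ _, left_mem_segment _ _ _⟩
  · refine Set.eq_empty_iff_forall_notMem.2 ?_
    rintro X ⟨hX1, hX2⟩
    obtain ⟨ρ, h0, h1, rfl⟩ := segr hr hX1
    obtain ⟨β, g0, g1, hβ⟩ := seg2 hX2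
    have h := pt_inj hC hd hβ
    rcases h0.eq_or_lt with rfl | h0
    · rw [zero_smul] at h
      simp only [Prod.ext_iff, Prod.fst_zero, Prod.snd_zero] at h
      linarith [h.1, h.2.1]
    · exact absurd h (H2 ρ β h0 h1 g0 g1)
  · refine Set.eq_empty_iff_forall_notMem.2 ?_
    rintro X ⟨hX1, hX2⟩
    obtain ⟨ρ, h0, h1, rfl⟩ := segr hr hX1
    obtain ⟨β, g0, g1, hβ⟩ := seg3 hX2
    have h := pt_inj hC hd hβ
    rcases h0.eq_or_lt with rfl | h0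
    · rw [zero_smul] at h
      simp only [Prod.ext_iff, Prod.fst_zero, Prod.snd_zero] at h
      linarith [h.1, h.2.2]
    · exact absurd h (H3 ρ β h0 h1 g0 g1)
  · refine Set.eq_empty_iff_forall_notMem.2 ?_
    rintro X ⟨hX1, hX2⟩
    obtain ⟨ρ, h0, h1, rfl⟩ := segr hr hX1
    rcases h0.eq_or_lt with rfl | h0
    · rw [zero_smul] at hX2
      have h01 : (0 : ℝ × ℝ × ℝ) = (0, 0, 0) := rfl
      rw [h01, pt_one] at hX2
      have := hv1.2.2.2.2.2.2.1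
      rw [Dj, Set.eq_empty_iff_forall_notMem] at this
      exact this (v 1) ⟨right_mem_segment _ _ _, hX2⟩
    · obtain ⟨s, g0, g1, hβ⟩ := seg4 h5 hX2
      exact absurd (pt_inj hC hd hβ) (H4 ρ s h0 h1 g0 g1)

/-- turn link 4 to the direction `q` -/
theorem ray4 (hS : SM6Stmt) (hC : CRDStmt) {l : Fin 5 → ℝ} {v : Fin 6 → E3} (hv : v ∈ Conf l)
    (hd : dt v ≠ 0) {p : ℝ × ℝ × ℝ} (h5 : v 0 = pt v p) (q : ℝ × ℝ × ℝ) (r : ℝ)
    (hr : 0 ≤ r) (hn : r * ‖vc v q‖ = l 4)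
    (H0 : ∀ s ρ : ℝ, 0 < s → s ≤ r → 0 ≤ ρ → ρ ≤ 1 → ρ • p ≠ (s * q.1, s * q.2.1, 1 + s * q.2.2))
    (H1 : ∀ s β : ℝ, 0 < s → s ≤ r → 0 ≤ β → β ≤ 1 → (0, β, 0) ≠ (s * q.1, s * q.2.1, 1 + s * q.2.2))
    (H2 : ∀ s β : ℝ, 0 < s → s ≤ r → 0 ≤ β → β ≤ 1 →
      (1 - β, β, 0) ≠ (s * q.1, s * q.2.1, 1 + s * q.2.2))
    (H3 : ∀ s β : ℝ, 0 < s → s ≤ r → 0 ≤ β → β ≤ 1 →
      (1 - β, 0, β) ≠ (s * q.1, s * q.2.1, 1 + s * q.2.2)) :
    Function.update v 5 (v 4 + r • vc v q) ∈ Conf l := by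
  have hv' := (hS.2 l v).1 hv
  have hv1 := (hS.1 v).1 hv'.2
  have key : ∀ {a b : E3}, Dj a b (v 4) (v 5) → v 4 ∉ segment ℝ a b := by
    intro a b hab h4
    rw [Dj, Set.eq_empty_iff_forall_notMem] at hab
    exact hab (v 4) ⟨h4, left_mem_segment _ _ _⟩
  have z4 : pt v (0 * q.1, 0 * q.2.1, 1 + 0 * q.2.2) = v 4 := by
    rw [← pt_four v]
    simp
  refine upd5 hS hv _ ?_ ?_ ?_ ?_ ?_
  · rw [dist_eq_norm, sub_add_cancel_left, norm_neg, norm_smul, Real.norm_of_nonneg hr, hn]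
  · refine Set.Subset.antisymm ?_ ?_
    · rintro X ⟨hX1, hX2⟩
      obtain ⟨s, h0, h1, rfl⟩ := segr4 hr hX2
      obtain ⟨β, g0, g1, hβ⟩ := seg3 hX1
      have h := pt_inj hC hd hβ
      rcases h0.eq_or_lt with rfl | h0
      · exact z4
      · exact absurd h.symm (H3 s β h0 h1 g0 g1)
    · rintro X rfl
      exact ⟨right_mem_segment _ _ _, left_mem_segment _ _ _⟩
  · refine Set.eq_empty_iff_forall_notMem.2 ?_
    rintro X ⟨hX1, hX2⟩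
    obtain ⟨s, h0, h1, rfl⟩ := segr4 hr hX2
    rcases h0.eq_or_lt with rfl | h0
    · rw [z4] at hX1
      exact key hv1.2.2.2.2.2.2.1 hX1
    · obtain ⟨ρ, g0, g1, hβ⟩ := seg0 h5 hX1
      exact absurd (pt_inj hC hd hβ).symm (H0 s ρ h0 h1 g0 g1)
  · refine Set.eq_empty_iff_forall_notMem.2 ?_
    rintro X ⟨hX1, hX2⟩
    obtain ⟨s, h0, h1, rfl⟩ := segr4 hr hX2
    rcases h0.eq_or_lt with rfl | h0
    · rw [z4] at hX1
      exact key hv1.2.2.2.2.2.2.2.2.1 hX1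
    · obtain ⟨β, g0, g1, hβ⟩ := seg1 hX1
      exact absurd (pt_inj hC hd hβ).symm (H1 s β h0 h1 g0 g1)
  · refine Set.eq_empty_iff_forall_notMem.2 ?_
    rintro X ⟨hX1, hX2⟩
    obtain ⟨s, h0, h1, rfl⟩ := segr4 hr hX2
    rcases h0.eq_or_lt with rfl | h0
    · rw [z4] at hX1
      exact key hv1.2.2.2.2.2.2.2.2.2 hX1
    · obtain ⟨β, g0, g1, hβ⟩ := seg2 hX1
      exact absurd (pt_inj hC hd hβ).symm (H2 s β h0 h1 g0 g1)

/-- link 0 turned to the direction `q` -/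
noncomputable def W0 (l : Fin 5 → ℝ) (v : Fin 6 → E3) (q : ℝ × ℝ × ℝ) : Fin 6 → E3 :=
  Function.update v 0 (v 1 + (l 0 / ‖pt v q - v 1‖) • (pt v q - v 1))

theorem pt_cont (v : Fin 6 → E3) : Continuous (pt v) := by
  unfold pt
  fun_prop

theorem vc_cont (v : Fin 6 → E3) : Continuous (vc v) := by
  unfold vc
  fun_prop

theorem W0_cont (hC : CRDStmt) (l : Fin 5 → ℝ) {v : Fin 6 → E3} (hd : dt v ≠ 0)
    (S : Set (ℝ × ℝ × ℝ)) (hS : ∀ p ∈ S, p ≠ 0) : ContinuousOn (W0 l v) S := by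
  have h1 : ContinuousOn (fun q => v 1 + (l 0 / ‖pt v q - v 1‖) • (pt v q - v 1)) S := by
    have h2 : ContinuousOn (fun q => pt v q - v 1) S :=
      ((pt_cont v).sub continuous_const).continuousOn
    refine continuousOn_const.add (ContinuousOn.smul (continuousOn_const.div h2.norm ?_) h2)
    intro p hp h
    rw [norm_eq_zero, vc_pt] at h
    exact hS p hp (vc_zero hC hd h)
  unfold W0
  intro q hq
  have := h1 q hq
  exact (continuousWithinAt_const (b := v)).update 0 this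

theorem W0_join (hC : CRDStmt) {l : Fin 5 → ℝ} {v : Fin 6 → E3} (hd : dt v ≠ 0)
    {S : Set (ℝ × ℝ × ℝ)} (hS : ∀ p ∈ S, p ≠ 0) (hW : ∀ p ∈ S, W0 l v p ∈ Conf l)
    {p q : ℝ × ℝ × ℝ} (h : JoinedIn S p q) : JoinedIn (Conf l) (W0 l v p) (W0 l v q) := by
  have h1 := h.map_continuousOn (W0_cont hC l hd S hS)
  refine h1.mono ?_
  rintro _ ⟨x, hx, rfl⟩
  exact hW x hx

theorem W0_self {l : Fin 5 → ℝ} {v : Fin 6 → E3} (hv : dist (v 0) (v 1) = l 0) {q : ℝ × ℝ × ℝ}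
    (hl : 0 < l 0) (hq : v 0 = pt v q) : W0 l v q = v := by
  unfold W0
  rw [← hq, ← dist_eq_norm, hv, div_self hl.ne', one_smul, add_sub_cancel, Function.update_eq_self]

theorem W0_straight {l : Fin 5 → ℝ} {v : Fin 6 → E3} (hv : dist (v 1) (v 2) = l 1) :
    W0 l v (0, -1, 0) = Function.update v 0 (v 1 - (l 0 / l 1) • (v 2 - v 1)) := by
  unfold W0
  have h : pt v (0, -1, 0) - v 1 = -(v 2 - v 1) := by simp [pt]
  rw [h, norm_neg, ← dist_eq_norm, dist_comm, hv, smul_neg, ← sub_eq_add_neg]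

end Pool.Agent.LC5.H43
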